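import Pool.Agent.Run7.h713.Assemble

/-!
# A formula which does not fork over a model and lies in no definable type

The theory is the complete theory of the set of finite binary words with the relation
`R(a, b, c, d)` saying that `|a| = |b|`, `|c| = |d|` and the bitwise sum `a + b` is an initial
segment of the bitwise sum `c + d`. It is dp-minimal: in one variable, each formula defines a
Boolean combination of members of the laminar family of the sets `{x : |u| ≤ |x|}` and
`{x : |x| = |x₀|, x and x₀ agree below |u|}`, and of boundedly many of them when the parameters
vary.

Let `M` be the standard model, `0` and `1` the words of length one, and let `b` be longer than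
each word of `M`. The formula `R(0, 1, x, y) ∧ R(b, b, x, x)` lies in an `M`-invariant type: the
type of a pair of very long words whose sum begins with `1000...` and avoids all prescribed initial
segments of nonstandard length. So it does not fork over `M`. If it were in a type definable over
words of length at most `N`, then the sum `x + y` would begin with a word `t` of length `N + 1`
whose first digit is 1; but an automorphism fixing all words of length at most `N` changes the last
digit of `t`.
-/

set_option autoImplicit false

namespace Pool.Agent.Results.MP_510d92_lc.NegativeAnswer

open FirstOrder FirstOrder.Language Run7.h713

/-- There are a complete dp-minimal theory `T`, a monster model `U` of `T`, a small `M ≺ U` and a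
formula `θ` in two variables with parameters in `U` such that `θ` does not fork over `M` and no
global `M`-definable type contains `θ`. -/
theorem result : ∃ (L : FirstOrder.Language.{0, 0}) (T : L.Theory), T.IsComplete ∧
    IsDPMinimal T ∧ ∃ (U : Type 1) (_ : L.Structure U), IsMonster T U ∧
      ∃ M : L.ElementarySubstructure U, Small.{0} M ∧
        ∃ θ : Fml L U 2, ¬ Forks (M : Set U) θ ∧
          ∀ p : Set (Fml L U 2), IsGlobalType p → IsDefinableOver (M : Set U) p → θ ∉ p :=
  counterexample

end Pool.Agent.Results.MP_510d92_lc.NegativeAnswer
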